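import Pool.Agent.TTC.Stmts

set_option autoImplicit false

/-!
# Row DEG of squad TTC (MP_160b6c_nt): few degenerate quintics
-/

namespace Pool.Agent.TTC.H24

open Polynomial Pool.Agent.TTC

/-- The derivative of `qp a 0` over the rational numbers. -/
noncomputable def qq (a : Fin 4 → ℤ) : ℚ[X] :=
  C 5 * X ^ 4 + C (4 * (a 0 : ℚ)) * X ^ 3 + C (3 * (a 1 : ℚ)) * X ^ 2 + C (2 * (a 2 : ℚ)) * X +
    C (a 3 : ℚ)

lemma der_map (a : Fin 4 → ℤ) :
    (derivative (qp a 0)).map (Int.castRingHom ℚ) = qq a := by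
  unfold qp qq
  simp only [derivative_add, derivative_mul, derivative_X_pow, derivative_C, derivative_X,
    Polynomial.map_add, Polynomial.map_mul, Polynomial.map_pow, Polynomial.map_X, map_C,
    Int.coe_castRingHom, Polynomial.map_zero, zero_mul, mul_one]
  push_cast
  simp only [map_mul, map_ofNat, zero_add, add_zero, pow_one]
  ring

lemma natDegree_qq (a : Fin 4 → ℤ) : (qq a).natDegree = 4 := by
  unfold qq
  compute_degree!

lemma natDegree_qq' (a : Fin 4 → ℤ) : (derivative (qq a)).natDegree = 3 := by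
  rw [natDegree_derivative, natDegree_qq]

lemma qq_ne (a : Fin 4 → ℤ) : qq a ≠ 0 := by
  intro h
  have := natDegree_qq a
  rw [h, natDegree_zero] at this
  omega

lemma not_sq (a : Fin 4 → ℤ) (h : wr a = 0) : ¬ Squarefree (qq a) := by
  have h1 : resultant (derivative (qp a 0)) (derivative (derivative (qp a 0))) 4 3 = 0 := by
    unfold wr at h
    omega
  have h2 : resultant (qq a) (derivative (qq a)) 4 3 = 0 := by
    have h3 := resultant_map_map (derivative (qp a 0)) (derivative (derivative (qp a 0))) 4 3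
      (Int.castRingHom ℚ)
    have h4 : (derivative (derivative (qp a 0))).map (Int.castRingHom ℚ) = derivative (qq a) := by
      rw [← derivative_map, der_map]
    rw [h4, der_map, h1, map_zero] at h3
    exact h3
  have h4 : resultant (qq a) (derivative (qq a)) = 0 := by
    rw [natDegree_qq, natDegree_qq']
    exact h2
  rw [resultant_eq_zero_iff] at h4
  rw [← PerfectField.separable_iff_squarefree]
  exact h4.2

/-- the equations at a rational double root `n / 5` -/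
def D1 (a : Fin 4 → ℤ) (n : ℤ) : Prop :=
  (a 2 : ℚ) = -(10 * ((n : ℚ) / 5) ^ 3 + 6 * (a 0 : ℚ) * ((n : ℚ) / 5) ^ 2 +
    3 * (a 1 : ℚ) * ((n : ℚ) / 5)) ∧
  (a 3 : ℚ) = -(5 * ((n : ℚ) / 5) ^ 4 + 4 * (a 0 : ℚ) * ((n : ℚ) / 5) ^ 3 +
    3 * (a 1 : ℚ) * ((n : ℚ) / 5) ^ 2 + 2 * (a 2 : ℚ) * ((n : ℚ) / 5))

/-- the equations for five times a square -/
def D2 (a : Fin 4 → ℤ) : Prop :=
  (a 2 : ℚ) = 5 * (2 * (a 0 : ℚ) / 5) * ((3 * (a 1 : ℚ) / 5 - (2 * (a 0 : ℚ) / 5) ^ 2) / 2) ∧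
  (a 3 : ℚ) = 5 * ((3 * (a 1 : ℚ) / 5 - (2 * (a 0 : ℚ) / 5) ^ 2) / 2) ^ 2

lemma eval_qq (a : Fin 4 → ℤ) (r : ℚ) : (qq a).eval r =
    5 * r ^ 4 + 4 * (a 0 : ℚ) * r ^ 3 + 3 * (a 1 : ℚ) * r ^ 2 + 2 * (a 2 : ℚ) * r + (a 3 : ℚ) := by
  unfold qq
  simp

lemma eval_qq' (a : Fin 4 → ℤ) (r : ℚ) : (derivative (qq a)).eval r =
    20 * r ^ 3 + 12 * (a 0 : ℚ) * r ^ 2 + 6 * (a 1 : ℚ) * r + 2 * (a 2 : ℚ) := by
  unfold qq
  simp
  ring

/-- five times a rational root is an integer -/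
lemma int_root (a : Fin 4 → ℤ) (r : ℚ) (h : (qq a).eval r = 0) : ∃ n : ℤ, (n : ℚ) = 5 * r := by
  have h1 : IsIntegral ℤ (5 * r) := by
    refine ⟨X ^ 4 + C (4 * a 0) * X ^ 3 + C (15 * a 1) * X ^ 2 + C (50 * a 2) * X + C (125 * a 3),
      ?_, ?_⟩
    · monicity!
    · simp only [eval₂_add, eval₂_mul, eval₂_pow, eval₂_X, eval₂_C]
      rw [eval_qq] at h
      simp only [eq_intCast]
      push_cast
      linear_combination 125 * h
  obtain ⟨n, hn⟩ := IsIntegrallyClosed.isIntegral_iff.1 h1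
  exact ⟨n, by simpa using hn⟩

/-- the size of a rational root -/
lemma size_root (H : ℕ) (hH : 1 ≤ H) (a : Fin 4 → ℤ) (ha : Box H a) (r : ℚ)
    (h : (qq a).eval r = 0) : |r| ≤ 2 * H := by
  rw [eval_qq] at h
  by_contra hlt
  push Not at hlt
  have hH' : (1 : ℚ) ≤ H := by exact_mod_cast hH
  have hb : ∀ i : Fin 4, |(a i : ℚ)| ≤ (H : ℚ) ^ (i.val + 1) := fun i => by
    have := ha i
    exact_mod_cast this
  have h0 : |(a 0 : ℚ)| ≤ (H : ℚ) := by simpa using hb 0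
  have h1 : |(a 1 : ℚ)| ≤ (H : ℚ) ^ 2 := hb 1
  have h2 : |(a 2 : ℚ)| ≤ (H : ℚ) ^ 3 := hb 2
  have h3 : |(a 3 : ℚ)| ≤ (H : ℚ) ^ 4 := hb 3
  set R : ℚ := |r| with hR
  have hRpos : 0 < R := by linarith
  have hHR : (H : ℚ) ≤ R / 2 := by linarith
  have e1 : 5 * r ^ 4 = -(4 * (a 0 : ℚ) * r ^ 3 + 3 * (a 1 : ℚ) * r ^ 2 + 2 * (a 2 : ℚ) * r
    + (a 3 : ℚ)) := by linarith
  have e2 : 5 * R ^ 4 ≤ 4 * |(a 0 : ℚ)| * R ^ 3 + 3 * |(a 1 : ℚ)| * R ^ 2 +
      2 * |(a 2 : ℚ)| * R + |(a 3 : ℚ)| := by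
    have h5 : 5 * R ^ 4 = |5 * r ^ 4| := by
      rw [abs_mul, abs_pow, hR]
      norm_num
    rw [h5, e1, abs_neg]
    refine (abs_add_le _ _).trans ?_
    refine add_le_add ((abs_add_le _ _).trans ?_) le_rfl
    refine add_le_add ((abs_add_le _ _).trans ?_) ?_
    · refine add_le_add ?_ ?_
      · rw [abs_mul, abs_mul, abs_pow, hR]
        norm_num
      · rw [abs_mul, abs_mul, abs_pow, hR]
        norm_num
    · rw [abs_mul, abs_mul, hR]
      norm_num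
  have hHp : (0 : ℚ) ≤ H := by linarith
  have g0 : |(a 0 : ℚ)| * R ^ 3 ≤ R / 2 * R ^ 3 :=
    mul_le_mul_of_nonneg_right (h0.trans hHR) (by positivity)
  have g1 : |(a 1 : ℚ)| * R ^ 2 ≤ (R / 2) ^ 2 * R ^ 2 :=
    mul_le_mul_of_nonneg_right (h1.trans (pow_le_pow_left₀ hHp hHR 2)) (by positivity)
  have g2 : |(a 2 : ℚ)| * R ≤ (R / 2) ^ 3 * R :=
    mul_le_mul_of_nonneg_right (h2.trans (pow_le_pow_left₀ hHp hHR 3)) (by positivity)
  have g3 : |(a 3 : ℚ)| ≤ (R / 2) ^ 4 := h3.trans (pow_le_pow_left₀ hHp hHR 4)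
  have g4 : 0 < R ^ 4 := by positivity
  nlinarith

/-- The dichotomy. -/
lemma dich (H : ℕ) (hH : 1 ≤ H) (a : Fin 4 → ℤ) (ha : Box H a) (h : wr a = 0) :
    ∃ n : ℤ, (|n| ≤ 10 * H ∧ D1 a n) ∨ (n = 10 * H + 1 ∧ D2 a) := by
  have hs := not_sq a h
  unfold Squarefree at hs
  push Not at hs
  obtain ⟨x, ⟨w, hw⟩, hx⟩ := hs
  have hx0 : x ≠ 0 := by
    rintro rfl
    rw [zero_mul, zero_mul] at hw
    exact qq_ne a hw
  have hw0 : w ≠ 0 := by
    rintro rfl
    rw [mul_zero] at hw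
    exact qq_ne a hw
  have hdeg : x.natDegree + x.natDegree + w.natDegree = 4 := by
    rw [← natDegree_qq a, hw, natDegree_mul (mul_ne_zero hx0 hx0) hw0, natDegree_mul hx0 hx0]
  have hx1 : x.natDegree ≠ 0 := by
    intro h0
    obtain ⟨c, hc⟩ := natDegree_eq_zero.1 h0
    apply hx
    rw [← hc]
    refine isUnit_C.2 ?_
    rw [isUnit_iff_ne_zero]
    rintro rfl
    rw [C_0] at hc
    exact hx0 hc.symm
  have hx2 : x.natDegree = 1 ∨ x.natDegree = 2 := by omega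
  rcases hx2 with hx2 | hx2
  · -- a rational double root
    obtain ⟨r, hr⟩ := exists_root_of_degree_eq_one
      ((degree_eq_iff_natDegree_eq_of_pos one_pos).2 hx2)
    have hr0 : x.eval r = 0 := hr
    have e1 : (qq a).eval r = 0 := by
      rw [hw, eval_mul, eval_mul, hr0]
      ring
    have e2 : (derivative (qq a)).eval r = 0 := by
      rw [hw, derivative_mul, derivative_mul, eval_add, eval_mul, eval_mul, eval_add, eval_mul,
        eval_mul, eval_mul, hr0]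
      ring
    obtain ⟨n, hn⟩ := int_root a r e1
    have hsz := size_root H hH a ha r e1
    refine ⟨n, Or.inl ⟨?_, ?_, ?_⟩⟩
    · have h5 : |(n : ℚ)| ≤ 10 * H := by
        rw [hn, abs_mul]
        have : |(5 : ℚ)| = 5 := by norm_num
        rw [this]
        linarith
      exact_mod_cast h5
    · have h6 : (n : ℚ) / 5 = r := by rw [hn]; ring
      rw [h6]
      rw [eval_qq'] at e2
      linarith
    · have h6 : (n : ℚ) / 5 = r := by rw [hn]; ring
      rw [h6]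
      rw [eval_qq] at e1
      linarith
  · -- five times a square
    have hwd : w.natDegree = 0 := by omega
    obtain ⟨δ, hδ⟩ := natDegree_eq_zero.1 hwd
    have hxq := eq_quadratic_of_degree_le_two
      (p := x) (by rw [degree_eq_natDegree hx0, hx2]; exact le_rfl)
    set α := x.coeff 2 with hα
    set β := x.coeff 1 with hβ
    set γ := x.coeff 0 with hγ
    have hα0 : α ≠ 0 := by
      rw [hα, ← hx2]
      exact leadingCoeff_ne_zero.2 hx0
    have hexp : qq a = C (δ * α ^ 2) * X ^ 4 + C (2 * δ * α * β) * X ^ 3 +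
        C (δ * (β ^ 2 + 2 * α * γ)) * X ^ 2 + C (2 * δ * β * γ) * X + C (δ * γ ^ 2) := by
      rw [hw, ← hδ, hxq]
      simp only [C_mul, C_add, C_pow, map_ofNat]
      ring
    have hev : ∀ r : ℚ, 5 * r ^ 4 + 4 * (a 0 : ℚ) * r ^ 3 + 3 * (a 1 : ℚ) * r ^ 2 +
        2 * (a 2 : ℚ) * r + (a 3 : ℚ) = δ * α ^ 2 * r ^ 4 + 2 * δ * α * β * r ^ 3 +
        δ * (β ^ 2 + 2 * α * γ) * r ^ 2 + 2 * δ * β * γ * r + δ * γ ^ 2 := by
      intro r
      rw [← eval_qq, hexp]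
      simp
    have v0 := hev 0
    have v1 := hev 1
    have v2 := hev (-1)
    have v3 := hev 2
    have v4 := hev (-2)
    have c0 : (a 3 : ℚ) = δ * γ ^ 2 := by linarith
    have c4 : 5 = δ * α ^ 2 := by linarith
    have c2 : 3 * (a 1 : ℚ) = δ * (β ^ 2 + 2 * α * γ) := by linarith
    have c3 : 4 * (a 0 : ℚ) = 2 * δ * α * β := by linarith
    have c1 : 2 * (a 2 : ℚ) = 2 * δ * β * γ := by linarith
    obtain ⟨s, hs⟩ : ∃ s, β = s * α := ⟨β / α, by field_simp⟩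
    obtain ⟨t, ht⟩ : ∃ t, γ = t * α := ⟨γ / α, by field_simp⟩
    rw [hs] at c1 c2 c3
    rw [ht] at c0 c1 c2
    have d3 : 2 * (a 0 : ℚ) / 5 = s := by
      have : 4 * (a 0 : ℚ) = 10 * s := by
        rw [c3]
        linear_combination (-2 * s) * c4
      linarith
    have d2 : (3 * (a 1 : ℚ) / 5 - s ^ 2) / 2 = t := by
      have : 3 * (a 1 : ℚ) = 5 * (s ^ 2 + 2 * t) := by
        rw [c2]
        linear_combination (-(s ^ 2 + 2 * t)) * c4
      linarith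
    refine ⟨10 * H + 1, Or.inr ⟨rfl, ?_, ?_⟩⟩
    · rw [d3, d2]
      linear_combination c1 / 2 - s * t * c4
    · rw [d3, d2]
      linear_combination c0 - t ^ 2 * c4

/-- The proof of row DEG. -/
theorem deg : DegStmt := by
  classical
  refine ⟨198, by norm_num, fun H hH => ?_⟩
  set S : Set (Fin 4 → ℤ) := {a : Fin 4 → ℤ | Box H a ∧ wr a = 0} with hS
  have hch : ∀ a : Fin 4 → ℤ, ∃ n : ℤ, a ∈ S →
      (|n| ≤ 10 * H ∧ D1 a n) ∨ (n = 10 * H + 1 ∧ D2 a) := by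
    intro a
    by_cases ha : a ∈ S
    · obtain ⟨n, hn⟩ := dich H hH a ha.1 ha.2
      exact ⟨n, fun _ => hn⟩
    · exact ⟨0, fun h => absurd h ha⟩
  choose n hn using hch
  set f : (Fin 4 → ℤ) → ℤ × ℤ × ℤ := fun a => (a 0, a 1, n a) with hf
  set T : Finset (ℤ × ℤ × ℤ) := Finset.Icc (-(H : ℤ)) H ×ˢ
    (Finset.Icc (-((H : ℤ) ^ 2)) ((H : ℤ) ^ 2) ×ˢ Finset.Icc (-(10 * (H : ℤ))) (10 * H + 1)) with hT
  have hmaps : ∀ a ∈ S, f a ∈ (T : Set (ℤ × ℤ × ℤ)) := by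
    intro a ha
    have h0 : |a 0| ≤ (H : ℤ) := by simpa using ha.1 0
    have h1 : |a 1| ≤ (H : ℤ) ^ 2 := ha.1 1
    rw [abs_le] at h0 h1
    rw [hT, Finset.mem_coe, Finset.mem_product, Finset.mem_product, Finset.mem_Icc,
      Finset.mem_Icc, Finset.mem_Icc]
    refine ⟨h0, h1, ?_⟩
    show -(10 * (H : ℤ)) ≤ n a ∧ n a ≤ 10 * H + 1
    rcases hn a ha with ⟨h2, -⟩ | ⟨h2, -⟩
    · rw [abs_le] at h2
      exact ⟨h2.1, by linarith [h2.2]⟩
    · rw [h2]
      exact ⟨by omega, le_rfl⟩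
  have hinj : Set.InjOn f S := by
    intro a ha b hb hab
    have e0 : a 0 = b 0 := congrArg Prod.fst hab
    have e1 : a 1 = b 1 := congrArg (fun z => z.2.1) hab
    have e2 : n a = n b := congrArg (fun z => z.2.2) hab
    have key : (a 2 : ℚ) = b 2 ∧ (a 3 : ℚ) = b 3 := by
      rcases hn a ha with ⟨h2, h3, h4⟩ | ⟨h2, h3, h4⟩
      · rcases hn b hb with ⟨h5, h6, h7⟩ | ⟨h5, h6, h7⟩
        · have h8 : (a 2 : ℚ) = b 2 := by rw [h3, h6, e0, e1, e2]
          refine ⟨h8, ?_⟩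
          rw [h4, h7, e0, e1, e2, h8]
        · exfalso
          rw [e2, h5, abs_le] at h2
          linarith [h2.2]
      · rcases hn b hb with ⟨h5, h6, h7⟩ | ⟨h5, h6, h7⟩
        · exfalso
          rw [← e2, h2, abs_le] at h5
          linarith [h5.2]
        · refine ⟨?_, ?_⟩
          · rw [h3, h6, e0, e1]
          · rw [h4, h7, e0, e1]
    have e3 : a 2 = b 2 := by exact_mod_cast key.1
    have e4 : a 3 = b 3 := by exact_mod_cast key.2
    funext i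
    fin_cases i
    · exact e0
    · exact e1
    · exact e3
    · exact e4
  have hfin : S.Finite := Set.Finite.of_injOn hmaps hinj T.finite_toSet
  refine ⟨hfin, ?_⟩
  have hcard : S.ncard ≤ T.card := by
    have h1 := Set.ncard_le_ncard_of_injOn f hmaps hinj T.finite_toSet
    rwa [Set.ncard_coe_finset] at h1
  have hT1 : (T.card : ℝ) = (2 * H + 1) * ((2 * H ^ 2 + 1) * (20 * H + 2)) := by
    rw [hT, Finset.card_product, Finset.card_product, Int.card_Icc, Int.card_Icc, Int.card_Icc]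
    have a1 : ((H : ℤ) + 1 - -(H : ℤ)).toNat = 2 * H + 1 := by omega
    have a2 : ((H : ℤ) ^ 2 + 1 - -((H : ℤ) ^ 2)).toNat = 2 * H ^ 2 + 1 := by
      have : (H : ℤ) ^ 2 + 1 - -((H : ℤ) ^ 2) = ((2 * H ^ 2 + 1 : ℕ) : ℤ) := by
        push_cast
        ring
      rw [this, Int.toNat_natCast]
    have a3 : (10 * (H : ℤ) + 1 + 1 - -(10 * (H : ℤ))).toNat = 20 * H + 2 := by omega
    rw [a1, a2, a3]
    push_cast
    ring
  have hH' : (1 : ℝ) ≤ H := by exact_mod_cast hH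
  have hc' : (S.ncard : ℝ) ≤ T.card := by exact_mod_cast hcard
  refine hc'.trans ?_
  rw [hT1]
  have b1 : (2 * (H : ℝ) + 1) ≤ 3 * H := by linarith
  have b2 : (2 * (H : ℝ) ^ 2 + 1) ≤ 3 * H ^ 2 := by nlinarith
  have b3 : (20 * (H : ℝ) + 2) ≤ 22 * H := by linarith
  calc (2 * (H : ℝ) + 1) * ((2 * H ^ 2 + 1) * (20 * H + 2))
      ≤ (3 * H) * ((3 * H ^ 2) * (22 * H)) := by gcongr
    _ = 198 * (H : ℝ) ^ 4 := by ring

end Pool.Agent.TTC.H24
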